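import Pool.Agent.Helper72.GP.GoalsB

/-!
# Project GP (MP_c9dfb5_co), packet HDEG

Degrees of the partial derivatives and of the polynomial `hes f`.
-/

set_option autoImplicit false

namespace Pool.Agent.Helper28.GP

open Finset Polynomial Pool.Agent.Helper72.GP
open scoped Polynomial.Bivariate Classical

theorem BDeg.mono {a b : ℕ} {F : ℝ[X][Y]} (h : BDeg a F) (hab : a ≤ b) : BDeg b F :=
  ⟨h.1.trans hab, fun j => (h.2 j).trans hab⟩

theorem BDeg.add {a : ℕ} {F G : ℝ[X][Y]} (hF : BDeg a F) (hG : BDeg a G) : BDeg a (F + G) := by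
  refine ⟨(natDegree_add_le _ _).trans (max_le hF.1 hG.1), fun j => ?_⟩
  rw [coeff_add]
  exact (natDegree_add_le _ _).trans (max_le (hF.2 j) (hG.2 j))

theorem BDeg.sub {a : ℕ} {F G : ℝ[X][Y]} (hF : BDeg a F) (hG : BDeg a G) : BDeg a (F - G) := by
  refine ⟨(natDegree_sub_le _ _).trans (max_le hF.1 hG.1), fun j => ?_⟩
  rw [coeff_sub]
  exact (natDegree_sub_le _ _).trans (max_le (hF.2 j) (hG.2 j))

theorem BDeg.mul {a b : ℕ} {F G : ℝ[X][Y]} (hF : BDeg a F) (hG : BDeg b G) : BDeg (a + b) (F * G) := by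
  refine ⟨natDegree_mul_le.trans (add_le_add hF.1 hG.1), fun j => ?_⟩
  rw [coeff_mul]
  refine natDegree_sum_le_of_forall_le _ _ fun p _ => ?_
  exact natDegree_mul_le.trans (add_le_add (hF.2 _) (hG.2 _))

theorem BDeg.two : BDeg 0 (2 : ℝ[X][Y]) := by
  have e : (2 : ℝ[X][Y]) = C (C 2) := by
    rw [map_ofNat C, map_ofNat C]
  rw [e]
  refine ⟨by rw [natDegree_C], fun j => ?_⟩
  rw [coeff_C]
  split_ifs <;> simp

theorem coeff_dX (f : ℝ[X][Y]) (j : ℕ) : (dX f).coeff j = derivative (f.coeff j) := by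
  unfold dX
  rw [Polynomial.sum, finsetSum_coeff]
  simp only [coeff_C_mul, coeff_X_pow, mul_ite, mul_one, mul_zero]
  rw [Finset.sum_ite_eq f.support j fun k => derivative (f.coeff k)]
  split_ifs with h
  · rfl
  · rw [notMem_support_iff.1 h, derivative_zero]

theorem BDeg.dX {a : ℕ} {F : ℝ[X][Y]} (hF : BDeg a F) : BDeg a (dX F) := by
  refine ⟨natDegree_le_iff_coeff_eq_zero.2 fun n hn => ?_, fun j => ?_⟩
  · rw [coeff_dX, coeff_eq_zero_of_natDegree_lt (lt_of_le_of_lt hF.1 hn), derivative_zero]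
  · rw [coeff_dX]
    exact (natDegree_derivative_le _).trans ((Nat.sub_le _ _).trans (hF.2 j))

theorem BDeg.dY {a : ℕ} {F : ℝ[X][Y]} (hF : BDeg a F) : BDeg a (dY F) := by
  refine ⟨(natDegree_derivative_le _).trans ((Nat.sub_le _ _).trans hF.1), fun j => ?_⟩
  unfold Pool.Agent.Helper72.GP.dY
  rw [coeff_derivative]
  have e : ((j : ℝ[X]) + 1) = C ((j : ℝ) + 1) := by simp
  rw [e]
  exact (natDegree_mul_C_le _ _).trans (hF.2 _)

/-- **Packet HDEG** -/
theorem hdeg : HDEG := by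
  refine ⟨fun d f hf => ⟨BDeg.dY hf, BDeg.dX hf, ?_⟩, fun f hf h1 hd => ?_⟩
  · have hx := BDeg.dX hf
    have hy := BDeg.dY hf
    have hxx := BDeg.dX hx
    have hxy := BDeg.dX hy
    have hyy := BDeg.dY hy
    unfold hes
    rw [pow_two, pow_two]
    refine BDeg.add (BDeg.sub ?_ ?_) ?_
    · exact BDeg.mono (BDeg.mul hxx (BDeg.mul hy hy)) (by omega)
    · exact BDeg.mono (BDeg.mul (BDeg.mul (BDeg.mul BDeg.two hxy) hx) hy) (by omega)
    · exact BDeg.mono (BDeg.mul hyy (BDeg.mul hx hx)) (by omega)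
  · have h0 : Pool.Agent.Helper72.GP.dY f ≠ 0 := by
      intro h
      have := derivative_eq_zero.1 h
      omega
    have h2 := natDegree_le_of_dvd hd h0
    have h3 : (Pool.Agent.Helper72.GP.dY f).natDegree ≤ f.natDegree - 1 := natDegree_derivative_le f
    omega

end Pool.Agent.Helper28.GP
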